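import Pool.Agent.D0H93.TM.Main

/-!
# Tate's conjecture on the pole as a law of Mertens for the truncated Euler products

`X` is any smooth projective variety over `ℚ`, with the `L`-functions `L(H^n(X), s)` (for `n = 2m` the
edge point `s = n/2 + 1` is the point `s = m + 1` of the conjecture).  Nothing is assumed about
analytic continuation: the order at the edge is the limit along the real axis, as in the problem.
We show that the order of the pole can be read off from the TRUNCATED Euler products at the edge point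
itself, with the constant `e^{γ k}` of Mertens, and also from a series over the primes of the traces of
Frobenius.  So for every `X` and `m` Tate's conjecture is equivalent to each of

* `∏_{p ≤ N} det(1 - Frob_p p^{-m-1} | H^{2m}(X))⁻¹ ~ c (log N)^{rank B^m(X)}`,
* the convergence of `∑_p (p^{-m} Tr(Frob_p | H^{2m}(X)) - rank B^m(X)) / p`.

The definitions are in `Pool.Agent.Y149.CM.Defs`, `Pool.Agent.Y149.PK.Defs` and `Pool.Agent.D0H93.TM.Defs`.
-/

set_option autoImplicit false

namespace Pool.Agent.Results.MP_058a58_ag.MertensLaw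

open Filter Topology Polynomial
open Pool.Agent.Y149.CM (LFun)
open Pool.Agent.Y149.PK (Variety IsEuler HasOrder size)
open Pool.Agent.D0H93.TM

/-- **The pole of Tate's conjecture as a Mertens law.**  Let `X` be a smooth projective variety over `ℚ`
and let `B p` be Euler factors of `L(H^n(X), s)`.
1. For all small `ε > 0` the logarithms of `|L(n/2+1+ε)|` and of the truncated product
`|∏_{p ≤ e^{1/ε}} B_p(p^{-(n/2+1)})⁻¹|` differ by a bounded quantity; so `log |L(n/2+1+ε)| / log (1/ε)` has
a limit if and only if `log |∏_{p ≤ N} B_p(p^{-(n/2+1)})⁻¹| / log log N` has one, with the same value.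
2. For an integer `k`, `ord_{s=n/2+1} L(H^n(X), s) = -k` if and only if
`(log N)^{-k} ∏_{p ≤ N} B_p(p^{-(n/2+1)})⁻¹` has a nonzero limit, if and only if the series
`∑_p (p^{-n/2} Tr(Frob_p | H^n(X)) - k) / p` converges; and `(s - n/2 - 1)^k L(s) → a ≠ 0` if and only if
the truncated products, divided by `(log N)^k`, tend to `e^{γ k} a`. -/
theorem result (X : Variety) (n : ℕ) (B : Nat.Primes → ℂ[X])
    (hB : IsEuler n (fun p => X.frob p n) B) :
    (∃ C : ℝ, ∀ᶠ ε : ℝ in 𝓝[>] 0, |Real.log ‖LFun B ((n : ℂ) / 2 + 1 + ε)‖ -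
      Real.log ‖partialProduct n B ⌊Real.exp (1 / ε)⌋₊‖| ≤ C) ∧
    (∀ κ : ℝ, Tendsto (size n B) (𝓝[>] 0) (𝓝 κ) ↔
      Tendsto (fun N : ℕ => Real.log ‖partialProduct n B N‖ / Real.log (Real.log N)) atTop (𝓝 κ)) ∧
    ∀ k : ℤ,
      (HasOrder n B (-k) ↔ ∃ a : ℂ, a ≠ 0 ∧ Tendsto (fun N : ℕ => partialProduct n B N /
        ((Real.log N : ℝ) : ℂ) ^ k) atTop (𝓝 a)) ∧
      (HasOrder n B (-k) ↔ ∃ c : ℂ, Tendsto (fun N : ℕ => ∑ p ∈ primesLE N,
        (trace X n p - k) / ((p : ℕ) : ℂ)) atTop (𝓝 c)) ∧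
      ∀ a : ℂ, a ≠ 0 →
        (Tendsto (fun ε : ℝ => (ε : ℂ) ^ k * LFun B ((n : ℂ) / 2 + 1 + ε)) (𝓝[>] 0) (𝓝 a) ↔
          Tendsto (fun N : ℕ => partialProduct n B N / ((Real.log N : ℝ) : ℂ) ^ k) atTop
            (𝓝 (Complex.exp (k * Real.eulerMascheroniConstant) * a))) :=
  edge X n B hB

end Pool.Agent.Results.MP_058a58_ag.MertensLaw
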