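import Pool.Agent.D0H32.MC.Univ

/-!
# One set of modular curves which satisfies Tate's pole conjecture with all varieties

`Y_a`, `a ∈ κ`, are curves over `ℚ` with modular Jacobians without common factors, for example all
modular curves `X_0(N)`, `N` prime, of genus at least one; the genus is not bounded.  Let `R_a` be the
rank of the ring of the endomorphisms of the Jacobian of `Y_a` over `ℚ`, which is the genus for
`Y_a = X_0(N)`, `N` prime; the sum of the numbers `1 / R_a` over all primes `N` diverges.

We prove that there is ONE set of these curves, the complement of a set `S` with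
`∑_{a ∈ S} 1 / R_a ≤ θ`, `θ > 0` arbitrarily small, which works for ALL smooth projective varieties
`X_0, X_1, …` over `ℚ` at once (there are only countably many): the order of the pole of
`L(H^n(X_j × Y_{a_1} × ⋯ × Y_{a_k}), s)` at the edge is the number predicted by the conjecture of
Tate, if every `a_{i+1}` is outside of `S` and of a finite set which depends on `X_j` and
`a_1, …, a_i`.

The definitions are in `Pool.Agent.D0H32.MC.Defs`, `Pool.Agent.D0H32.MC.Univ` (`IsSystemY`,
`IsAlgebraic`) and `Pool.Agent.Y149.PK.Defs`.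
-/

set_option autoImplicit false

open Filter Topology Polynomial

namespace Pool.Agent.Results.MP_058a58_ag.OneSetOfLevels

open Pool.Agent.Y149.PK (Variety HasOrder evenPart)
open Pool.Agent.D0H32.MC

/-- **One set of modular curves for all varieties and any number of factors.**  `V_i`, `i ∈ ι`, are the
Galois representations of different newforms of weight two, `Y_a`, `a ∈ κ`, are countably many curves
over `ℚ` of genus at least one with `H^1(Y_a) = ⊕ V_i^{m_a(i)}`, no two of them with a common `V_i`, and
`R_a = ∑ m_a(i)²`; `X_0, X_1, …` are smooth projective varieties over `ℚ`, and `B j l n` are the Euler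
factors of `L(H^n(X_j × Y_{l_1} × ⋯ × Y_{l_k}), s)` for all lists `l` of indices.  For every `θ > 0`
there is a set `S` of indices with `∑_{a ∈ S} 1 / R_a ≤ θ` and the following properties.

1. (No continuation is assumed, and the existence of no order.)  For all `j`, `l`, `n` and `δ > 0` and
all but finitely many `a ∉ S`, for arbitrarily small `ε > 0` the number
`log |L(H^n(X_j × Y_l × Y_a), n/2 + 1 + ε)| / log(1/ε)` differs by less than `δ` from the sum of the
corresponding numbers for `H^n(X_j × Y_l)` and `H^{n-2}(X_j × Y_l)`.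

2. For all `j`, `l` and all but finitely many `a ∉ S` the following holds for all `n`: the order of the
pole of `L(H^n(X_j × Y_l × Y_a), s)` at `s = n/2 + 1` is the sum of the orders for `H^n(X_j × Y_l)` and
`H^{n-2}(X_j × Y_l)`, if these three orders exist.

3. If all the orders of the poles `r j l n` exist, then there are finite sets `T j l` such that for all
`j` and all lists `l = [a_k, …, a_1]` with `a_{i+1} ∉ S` and `a_{i+1} ∉ T j [a_i, …, a_1]` for all
`i < k`, the order of the pole for `H^n(X_j × Y_{a_1} × ⋯ × Y_{a_k})` is `∑_c C(k,c) r j [] (n - 2c)`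
for all `n`.  If the cohomology of `X_j` in all even degrees is generated by algebraic cycles over
`ℚ` (for example a point, or any curve), the order of the pole at `s = n + 1` for
`H^{2n}(X_j × Y_{a_1} × ⋯ × Y_{a_k})` is `∑_c C(k,c) b_{2n-2c}(X_j)`, for a point the binomial
coefficient `C(k, n)`: the rank of the group generated by the products of the cycles on the factors. -/
theorem result (ι : Type) (F : Newforms ι) (κ : Type) [Countable κ] (m : κ → ι →₀ ℕ)
    (hm0 : ∀ a, m a ≠ 0) (hdis : ∀ a b, a ≠ b → Disjoint (m a).support (m b).support)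
    (X : ℕ → Variety) (B : ℕ → List κ → ℕ → Nat.Primes → ℂ[X])
    (hB : ∀ j, IsSystemY F m (X j) (B j)) (θ : ℝ) (hθ : 0 < θ) :
    ∃ S : Set κ, (∀ J : Finset κ, (∀ a ∈ J, a ∈ S) → ∑ a ∈ J, (1 : ℝ) / rankEnd (m a) ≤ θ) ∧
      (∀ (j : ℕ) (l : List κ) (n : ℕ) (δ : ℝ), 0 < δ → ∃ T : Finset κ, ∀ a, a ∉ S → a ∉ T →
        ∃ᶠ ε : ℝ in 𝓝[>] 0, |excess n (B j (a :: l) n) (B j l) ε| < δ) ∧
      (∀ (j : ℕ) (l : List κ), ∃ T : Finset κ, ∀ a, a ∉ S → a ∉ T → ∀ (n : ℕ) (r : ℤ)
        (r₀ : ℕ → ℤ), HasOrder n (B j (a :: l) n) (-r) →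
        (∀ c, c = n ∨ c + 2 = n → HasOrder c (B j l c) (-(r₀ c))) → r = evenPart r₀ 1 n) ∧
      ∀ r : ℕ → List κ → ℕ → ℤ, (∀ j l n, HasOrder n (B j l n) (-(r j l n))) →
        ∃ T : ℕ → List κ → Finset κ, ∀ (j : ℕ) (l : List κ),
          (∀ a t, (a :: t) <:+ l → a ∉ S ∧ a ∉ T j t) →
          (∀ n, r j l n = evenPart (r j []) l.length n) ∧
          (IsAlgebraic (X j) → ∀ n, r j l (2 * n) =
            (evenPart (X j).betti l.length (2 * n) : ℕ)) :=
  universal F hm0 hdis X hB hθ

end Pool.Agent.Results.MP_058a58_ag.OneSetOfLevels
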