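import Pool.Agent.D0H93.TM.Main

/-!
# Tate's conjecture on the pole for divisors as a law for the numbers of points over the prime fields

The original form of the conjecture of Birch and Swinnerton-Dyer is the law
`∏_{p ≤ N} #E(𝔽_p) / p ~ c (log N)^r`.  We show that Tate's conjecture on the pole for divisors (`m = 1`) is
exactly a law of this kind, in which only the numbers of points over the PRIME fields occur.  Nothing
is assumed about analytic continuation: the order at `s = 2` is the limit along the real axis, as in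
the problem.

* If `b₁(X) = 0` (K3 surfaces, Enriques surfaces, all simply connected varieties), then Tate's
  conjecture for divisors on `X` is the law `∏_{p ≤ N} #X(𝔽_p) / p^d ~ c (log N)^{rank NS(X)}`.
* Let `A` be the Albanese variety of `X`, of dimension `g`.  Given Tate's conjecture for the divisors on
  `A`, Tate's conjecture for the divisors on `X` is the law
  `∏_{p ≤ N} (#X(𝔽_p) / p^d) / (#A(𝔽_p) / p^g) ~ c (log N)^{rank NS(X) - rank NS(A)}`.
* Let `J` be the Jacobian of a curve `C` of genus `g`.  Tate's conjecture for the divisors on `J` is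
  the law `∏_{p ≤ N} #J(𝔽_p) / (p^{g-1} #C(𝔽_p)) ~ c (log N)^{rank NS(J) - 1}`.

The definitions are in `Pool.Agent.Y149.CM.Defs`, `Pool.Agent.Y149.PK.Defs` and `Pool.Agent.D0H93.TM.Defs`.
-/

set_option autoImplicit false

namespace Pool.Agent.Results.MP_058a58_ag.PointCountLaw

open Filter Topology Polynomial
open Pool.Agent.Y149.CM (LFun)
open Pool.Agent.Y149.PK (Variety IsEuler HasOrder)
open Pool.Agent.D0H93.TM

/-- **Tate's conjecture on the pole for divisors as a law for the numbers of points.**  Let `X` be a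
geometrically connected smooth projective variety over `ℚ` of dimension `d` and `B p` Euler factors of
`L(H²(X), s)`.
1. Let `H¹(X) = 0`.  Then `ord_{s=2} L(H²(X), s) = -k` if and only if
`∏_{p ≤ N} #X(𝔽_p) / p^d ~ c (log N)^k`, if and only if `∑_p (#X(𝔽_p) / p^d - 1 - k / p)` converges.
2. Let `Y` have the same `H¹` as `X`, for instance the Albanese variety of `X`.  The quotient
`L(H²(X), s) / L(H²(Y), s)` has the order `-k` at `s = 2` if and only if
`∏_{p ≤ N} (#X(𝔽_p) / p^d) / (#Y(𝔽_p) / p^{dim Y}) ~ c (log N)^k`; and if `ord_{s=2} L(H²(Y), s) = -r`, then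
`ord_{s=2} L(H²(X), s) = -k` if and only if this law holds with the exponent `k - r`.
3. Let `Y` be a curve with the same `H¹` as `X`, for instance `X` the Jacobian of `Y`.  Then
`ord_{s=2} L(H²(X), s) = -k` if and only if
`∏_{p ≤ N} (#X(𝔽_p) / p^d) / (#Y(𝔽_p) / p) ~ c (log N)^{k-1}`. -/
theorem result (X : Variety) (hX : IsConnected X) (B : Nat.Primes → ℂ[X])
    (hB : IsEuler 2 (fun p => X.frob p 2) B) :
    ((∀ᶠ p : Nat.Primes in cofinite, X.frob p 1 = 0) → ∀ k : ℤ,
      (HasOrder 2 B (-k) ↔ ProductLaw (fun p => points X p / ((p : ℕ) : ℝ) ^ X.dim) k) ∧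
      (HasOrder 2 B (-k) ↔ ∃ c : ℝ, Tendsto (fun N : ℕ => ∑ p ∈ primesLE N,
        (points X p / ((p : ℕ) : ℝ) ^ X.dim - 1 - k / ((p : ℕ) : ℝ))) atTop (𝓝 c))) ∧
    (∀ Y : Variety, IsConnected Y → (∀ᶠ p : Nat.Primes in cofinite, X.frob p 1 = Y.frob p 1) →
      (∀ (B' : Nat.Primes → ℂ[X]), IsEuler 2 (fun p => Y.frob p 2) B' → ∀ k : ℤ,
        (HasQuotientOrder 2 B B' (-k) ↔ ProductLaw (fun p =>
          (points X p / ((p : ℕ) : ℝ) ^ X.dim) / (points Y p / ((p : ℕ) : ℝ) ^ Y.dim)) k) ∧
        ∀ r : ℤ, HasOrder 2 B' (-r) → (HasOrder 2 B (-k) ↔ ProductLaw (fun p =>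
          (points X p / ((p : ℕ) : ℝ) ^ X.dim) / (points Y p / ((p : ℕ) : ℝ) ^ Y.dim)) (k - r))) ∧
      (Y.dim = 1 → ∀ k : ℤ, HasOrder 2 B (-k) ↔ ProductLaw (fun p =>
        (points X p / ((p : ℕ) : ℝ) ^ X.dim) / (points Y p / ((p : ℕ) : ℝ))) (k - 1))) :=
  ⟨fun h k => simply X hX h B hB k, fun Y hY h => ⟨fun B' hB' k => pair X Y hX hY h B B' hB hB' k,
    fun hdim k => curve X Y hX hY hdim h B hB k⟩⟩

end Pool.Agent.Results.MP_058a58_ag.PointCountLaw
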