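import Pool.Agent.D0H32.MC.X0

/-!
# Tate's pole conjecture for the products of a variety with all modular curves

`X` is any smooth projective variety over `ℚ` and `Y` runs through the curves over `ℚ` with modular
Jacobian, for example through all modular curves `X_0(N)`; the genus of `Y` is not bounded.  By
Künneth `H^{n+1}(X × Y)` is the sum of `H^{n+1}(X)`, `H^{n-1}(X)(-1)` and `H^n(X) ⊗ H^1(Y)`, and for
`n + 1 = 2m` the conjecture says that the order of the pole of `L(H^{2m}(X × Y), s)` at `s = m + 1` is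
the sum of the orders for `H^{2m}(X)` and `H^{2m-2}(X)`, unless `H^n(X)` and `H^1(Y)` have a common
constituent.  For general `X` nothing is known about `L(H^n(X) ⊗ H^1(Y), s)` at the edge.

The starting files have theorems of this kind for elliptic curves, for families of varieties with
bounded Betti numbers and for varieties of CM type.  Here the newforms have arbitrary levels and
coefficient fields, and the curves unbounded genus.  The bounds are in terms of the rank of the ring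
of the endomorphisms of the Jacobian, which is the genus for `Y = X_0(N)`, `N` prime.  The proof uses
the one-sided orthogonality of newforms from `Pool.Agent.Y722.RS`.  The definitions are in
`Pool.Agent.D0H32.MC.Defs` and `Pool.Agent.Y149.PK.Defs`.
-/

set_option autoImplicit false

open Filter Topology Polynomial

namespace Pool.Agent.Results.MP_058a58_ag.ProductsWithModularCurves

open Pool.Agent.Y149.CM (LFun)
open Pool.Agent.Y149.PK (Variety HasOrder evenPart)
open Pool.Agent.D0H32.MC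

/-- **Products with modular curves.**  `X` is a smooth projective variety over `ℚ`, `A c` are the Euler
factors of `L(H^c(X), s)`, `q ≥ b_n(X)²` (or `q` is the order of the pole of `L(H^n(X) ⊗ H^n(X), s)` at
the edge), and `V_i`, `i ∈ ι`, are the Galois representations of different newforms of weight two, for
example of all newforms of weight two with trivial character.

Let `Y_a`, `a ∈ κ`, be curves of genus at least one with `H^1(Y_a) = ⊕ V_i^{m_a(i)}`, no two of them
with a common `V_i`, for example all `X_0(N)`, `N` prime, of genus at least one, and let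
`R_a = ∑ m_a(i)²` be the rank of `End(Jac(Y_a))`.  Let `x_a(ε)` be
`log |L(H^{n+1}(X × Y_a), (n+1)/2 + 1 + ε)| / log(1/ε)` minus the corresponding numbers for
`H^{n+1}(X)` and `H^{n-1}(X)` (the last one only for `n ≥ 1`).

1. For every finite set `J`, `η > 0` and all small `ε > 0` the sum of the `x_a(ε)² / R_a` over the
`a ∈ J` with `x_a(ε) > 0` and the sum over those with `x_a(ε) < 0` are at most `q + η`; in particular
`|x_a(ε)| ≤ √(q R_a) + η` for every single curve.
2. For every `δ > 0` there is a set `S` with `∑_{a ∈ S} 1/R_a ≤ 2q/δ²` such that for all `a` outside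
of `S` the number `|x_a(ε)|` is smaller than `δ` for arbitrarily small `ε > 0`.
3. If for all `a ∈ J` the orders `r_a`, `r₀(n+1)`, `r₀(n-1)` of the poles of
`L(H^{n+1}(X × Y_a), s)`, `L(H^{n+1}(X), s)`, `L(H^{n-1}(X), s)` at the edge exist, the sum of the
`(r_a - r₀(n+1) - r₀(n-1))² / R_a` over the `a ∈ J` with a positive difference and the sum over those
with a negative difference are at most `q`; so the differences are `0` outside of a set `S` with
`∑_{a ∈ S} 1/R_a ≤ 2q`.
4. If the orders of the poles of all `L(H^n(X) ⊗ V_i, s)` at the edge exist, they are `0` for all but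
at most `2q` newforms, of all levels, and with these finitely many integers `ρ_i` the number `x(ε)`
for every curve `Y` with `H^1(Y) = ⊕ V_i^{m_i}` tends to `∑ m_i ρ_i`, and the order of the pole of
`L(H^{n+1}(X × Y), s)` is `r₀(n+1) + r₀(n-1) + ∑ m_i ρ_i`, if these orders exist. -/
theorem result (X : Variety) (n q : ℕ) (hq : SelfBound X n q) (A : ℕ → Nat.Primes → ℂ[X])
    (hA : IsBase X A) (ι : Type) (F : Newforms ι) :
    (∀ (κ : Type) (m : κ → ι →₀ ℕ) (B : κ → Nat.Primes → ℂ[X]), (∀ a, m a ≠ 0) →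
      (∀ a b, a ≠ b → Disjoint (m a).support (m b).support) →
      (∀ a, IsProduct X F (m a) (n + 1) (B a)) →
      (∀ (J : Finset κ) (η : ℝ), 0 < η → ∀ᶠ ε : ℝ in 𝓝[>] 0,
        (∀ c, c ≤ n + 1 → LFun (A c) ((c : ℂ) / 2 + 1 + ε) ≠ 0) ∧
        (∀ a ∈ J, LFun (B a) (((n + 1 : ℕ) : ℂ) / 2 + 1 + ε) ≠ 0) ∧
        ∑ a ∈ J, (max (excess (n + 1) (B a) A ε) 0) ^ 2 / rankEnd (m a) ≤ q + η ∧
        ∑ a ∈ J, (max (-excess (n + 1) (B a) A ε) 0) ^ 2 / rankEnd (m a) ≤ q + η) ∧
      (∀ δ : ℝ, 0 < δ → ∃ S : Set κ,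
        (∀ J : Finset κ, (∀ a ∈ J, a ∈ S) → ∑ a ∈ J, (1 : ℝ) / rankEnd (m a) ≤ 2 * q / δ ^ 2) ∧
        ∀ a, a ∉ S → ∃ᶠ ε : ℝ in 𝓝[>] 0, |excess (n + 1) (B a) A ε| < δ) ∧
      ∀ (r : κ → ℤ) (r₀ : ℕ → ℤ) (J : Finset κ),
        (∀ c, c = n + 1 ∨ c + 2 = n + 1 → HasOrder c (A c) (-(r₀ c))) →
        (∀ a ∈ J, HasOrder (n + 1) (B a) (-(r a))) →
        ∑ a ∈ J, (max ((r a - evenPart r₀ 1 (n + 1) : ℤ) : ℝ) 0) ^ 2 / rankEnd (m a) ≤ q ∧
        ∑ a ∈ J, (max (-((r a - evenPart r₀ 1 (n + 1) : ℤ) : ℝ)) 0) ^ 2 / rankEnd (m a) ≤ q) ∧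
    ((∀ i, ∃ (B : Nat.Primes → ℂ[X]) (r : ℤ), IsTwist X F i n B ∧ HasOrder (n + 1) B (-r)) →
      ∃ ρ : ι → ℤ, {i | ρ i ≠ 0}.Finite ∧ {i | ρ i ≠ 0}.ncard ≤ 2 * q ∧
        (∀ J : Finset ι, (∑ i ∈ J, (max (ρ i) 0) ^ 2 ≤ q) ∧ ∑ i ∈ J, (max (-ρ i) 0) ^ 2 ≤ q) ∧
        (∀ (i : ι) (B : Nat.Primes → ℂ[X]) (r : ℤ), IsTwist X F i n B →
          HasOrder (n + 1) B (-r) → r = ρ i) ∧
        ∀ (m : ι →₀ ℕ) (B : Nat.Primes → ℂ[X]), IsProduct X F m (n + 1) B →
          Tendsto (excess (n + 1) B A) (𝓝[>] 0) (𝓝 ((m.sum fun i k => (k : ℤ) * ρ i : ℤ) : ℝ)) ∧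
          ∀ (r : ℤ) (r₀ : ℕ → ℤ), HasOrder (n + 1) B (-r) →
            (∀ c, c = n + 1 ∨ c + 2 = n + 1 → HasOrder c (A c) (-(r₀ c))) →
            r = evenPart r₀ 1 (n + 1) + m.sum fun i k => (k : ℤ) * ρ i) := by
  have hQ : QZ X.betti X.frob (n + 1) q := QB_self X hq
  have hq0 : (0 : ℝ) ≤ q := Nat.cast_nonneg q
  refine ⟨fun κ m B _ hdis hB => ⟨fun J η hη => ?_, fun δ hδ => ?_, fun r r₀ J hr₀ hr => ?_⟩,
    fun hex => all_newforms F X hq hA hex⟩
  · have h1 : ∀ᶠ ε : ℝ in 𝓝[>] 0, ∀ c ∈ Finset.range (n + 2),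
        LFun (A c) ((c : ℂ) / 2 + 1 + ε) ≠ 0 := by
      rw [Filter.eventually_all_finset]
      intro c _
      obtain ⟨C, hC⟩ := Pool.Agent.Y149.PK.link_base (X_VG X) (hA c)
      exact hC.mono fun ε h => h.1
    have h2 : ∀ᶠ ε : ℝ in 𝓝[>] 0, ∀ a ∈ J,
        LFun (B a) (((n + 1 : ℕ) : ℂ) / 2 + 1 + ε) ≠ 0 := by
      rw [Filter.eventually_all_finset]
      exact fun a _ => (link_product F (X_VG X) (hB a) hA).1
    filter_upwards [h1, h2, curves_size F (X_VG X) hQ hq0 hA hdis hB J (Or.inl rfl) hη,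
      curves_size F (X_VG X) hQ hq0 hA hdis hB J (Or.inr rfl) hη] with ε g1 g2 g3 g4
    simp only [one_mul] at g3
    simp only [neg_one_mul] at g4
    exact ⟨fun c hc => g1 c (Finset.mem_range.2 (by omega)), g2, g3, g4⟩
  · exact curves_exceptional_size F (X_VG X) hQ hq0 hA hdis hB hδ
  · have g3 := curves_order F (X_VG X) hQ hq0 hA hdis hB J (Or.inl rfl) hr₀ hr
    have g4 := curves_order F (X_VG X) hQ hq0 hA hdis hB J (Or.inr rfl) hr₀ hr
    simp only [one_mul] at g3
    simp only [neg_one_mul] at g4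
    exact ⟨g3, g4⟩

end Pool.Agent.Results.MP_058a58_ag.ProductsWithModularCurves
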